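import Pool.Agent.TH766.IQ.Nonneg

/-!
# Kodaira dimension `-∞` and positive total scalar curvature for iterated quotients

The class `IsTower0` of projective varieties over `ℂ` (given by their function fields) is the smallest
class which contains the point, the irreducible components of the projective varieties given by nested
sums of high powers of linear forms or of monomials, and the abelian covers of products of projective
spaces over arbitrary arrangements of hyperplanes with multiplicities at least `n i + 2`, and which
contains with `Y` all quotients `(Y × ∏ C j) / G`, for curves `C j` and finite groups `G` acting on the
product and permuting the curves, such that `MixedNonneg` holds, for instance such that the fixed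
locus of each `g ≠ 1` on the product of the curves is empty or of codimension at least `6`. The
operation can be iterated: `G` acts on the product, but neither on the varieties nor on the covers
from which `Y` is constructed.

For the manifolds `X` birational to the members of this class the following are equivalent: the Kodaira
dimension is `-∞`; `X` is uniruled (equivalently, by a known theorem which is not part of the Lean text,
`X` carries a Gauduchon metric of positive total scalar curvature); `K_X` is not pseudo-effective; `K_X`
is not `ℚ`-effective.

The result combines the theorems on the basic classes (`Pool.Agent.TH710.ND`, helper710, and
`Pool.Agent.TH756.PN`, helper756) with the one on quotients of products of a variety and curves in the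
starting repository (`Pool.Agent.W619`), where the result is assumed for the variety.
-/

set_option autoImplicit false
set_option linter.overlappingInstances false

open FF Pool.Agent.W619.PQ Pool.Agent.W619.TW Pool.Agent.TH766.IQ

namespace Pool.Agent.Results.MP_23b606_ag.IteratedQuotients

/-- Let `X` be a projective manifold which is birational to a member of the class of iterated
quotients, with function field `K`, dimension `d` and statement `u`. The following are equivalent: the
Kodaira dimension of `X` is `-∞`; `X` is uniruled; `K_X` is not pseudo-effective; `K_X` is not
`ℚ`-effective; `u`. Here `u` is explicit: it says that a component of a variety given by nested sums
which is used in the construction is ruled, or that one of the arrangements is reducible, or that one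
of the curves is rational. -/
theorem result (K : Type) [Field K] [Algebra ℂ K] (d : ℕ) (u : Prop) (h : IsTower0 K d u) :
    [KodairaNeg ℂ K d, IsUniruled ℂ K d, ¬ IsPsef ℂ K d (fun _ => False),
      ¬ IsEff ℂ K d (fun _ => False), u].TFAE :=
  final0 h

end Pool.Agent.Results.MP_23b606_ag.IteratedQuotients
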